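import Pool.Agent.Helper58.IC.Final

/-!
# Dynamical Mordell-Lang for curves and endomorphisms with a totally invariant hyperplane
-/

set_option autoImplicit false

namespace Pool.Agent.Results.MP_b15c9e_ag.InvariantHyperplane

open MvPolynomial

/-- The iterates of the tuple `F` of polynomials, as tuples of polynomials. -/
noncomputable def iterate {m : ℕ} (F : Fin m → MvPolynomial (Fin m) ℂ) :
    ℕ → Fin m → MvPolynomial (Fin m) ℂ
  | 0 => X
  | k + 1 => fun i => bind₁ (iterate F k) (F i)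

/-- The point `x` lies in the zero set of the set `S` of polynomials. -/
def On {m : ℕ} (S : Set (MvPolynomial (Fin m) ℂ)) (x : Fin m → ℂ) : Prop := ∀ g ∈ S, eval x g = 0

/-- The map `G` fixes the point `y` of projective space. -/
def Fixes {m : ℕ} (G : Fin m → MvPolynomial (Fin m) ℂ) (y : Fin m → ℂ) : Prop :=
  ∃ c : ℂ, ∀ i, eval y (G i) = c * y i

/-- The ideal of `ℂ[X_0, ..., X_N]` generated by `X_0` and all `G_i - G_i(y)`: for a point `y` of
the hyperplane `X_0 = 0` it defines the fibre through `y` of the map `G` on this hyperplane. -/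
noncomputable def fibre {N : ℕ} (G : Fin (N + 1) → MvPolynomial (Fin (N + 1)) ℂ)
    (y : Fin (N + 1) → ℂ) : Ideal (MvPolynomial (Fin (N + 1)) ℂ) :=
  Ideal.span (insert (X 0) (Set.range fun i => G i - C (eval y (G i))))

/-- The maximal ideal of the point `y`. -/
noncomputable def point {N : ℕ} (y : Fin (N + 1) → ℂ) : Ideal (MvPolynomial (Fin (N + 1)) ℂ) :=
  Ideal.span (Set.range fun i => X i - C (y i))

/-- The maximal ideal `m` of the local ring at `y` of the fibre through `y` of the map `G` on the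
hyperplane `X_0 = 0` satisfies `m ^ (e - 1) = 0` (by Nakayama's lemma this means that
`m ^ (e - 1)` is contained in `m ^ e`). It is enough that the multiplicity of `y` in this fibre is
smaller than `e`. -/
def IndexLT {N : ℕ} (G : Fin (N + 1) → MvPolynomial (Fin (N + 1)) ℂ) (y : Fin (N + 1) → ℂ)
    (e : ℕ) : Prop := point y ^ (e - 1) ≤ fibre G y ⊔ point y ^ e

/-- Let `d ≥ 2` and let `Φ = [X_0 ^ d : F_1 : ... : F_N]` be an endomorphism of complex projective
`N`-space, so that the hyperplane `H = {X_0 = 0}` is totally invariant. Let `V` be a closed subset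
which meets `H` in finitely many points (so that `V` has dimension at most one). Assume that for
every periodic point `y ∈ V ∩ H` of `Φ` there is `k ≥ 1` with `Φ^k(y) = y` such that the maximal
ideal `m` of the local ring at `y` of the fibre through `y` of `Φ^k : H → H` satisfies
`m ^ (d ^ k - 1) = 0`. Then for every point `a` the return set `{n : Φ^n(a) ∈ V}` is a finite union
of arithmetic progressions. -/
theorem result (N d : ℕ) (hd : 2 ≤ d) (F : Fin (N + 1) → MvPolynomial (Fin (N + 1)) ℂ)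
    (hF : ∀ i, (F i).IsHomogeneous d) (hF0 : F 0 = X 0 ^ d)
    (hnz : ∀ x : Fin (N + 1) → ℂ, (∀ i, eval x (F i) = 0) → x = 0)
    (S : Set (MvPolynomial (Fin (N + 1)) ℂ)) (hS : ∀ g ∈ S, ∃ e : ℕ, g.IsHomogeneous e)
    (hfin : ∃ B : Finset (Fin (N + 1) → ℂ), ∀ x : Fin (N + 1) → ℂ, x ≠ 0 → x 0 = 0 → On S x →
      ∃ b ∈ B, ∃ c : ℂ, x = c • b)
    (hM : ∀ y : Fin (N + 1) → ℂ, y ≠ 0 → y 0 = 0 → On S y →
      (∃ k : ℕ, 1 ≤ k ∧ Fixes (iterate F k) y) →
      ∃ k : ℕ, 1 ≤ k ∧ Fixes (iterate F k) y ∧ IndexLT (iterate F k) y (d ^ k))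
    (a : Fin (N + 1) → ℂ) (ha : a ≠ 0) :
    ∃ T : Finset (ℕ × ℕ),
      {n : ℕ | On S ((fun (x : Fin (N + 1) → ℂ) (i : Fin (N + 1)) => eval x (F i))^[n] a)} =
        {n : ℕ | ∃ q ∈ T, ∃ k : ℕ, n = q.1 * k + q.2} := by
  have hit : ∀ k, iterate F k = Pool.Agent.Helper65.RP.iter F k := by
    intro k
    induction k with
    | zero => rfl
    | succ k ih =>
      funext i
      change bind₁ (iterate F k) (F i) = bind₁ (Pool.Agent.Helper65.RP.iter F k) (F i)
      rw [ih]
  refine Pool.Agent.Helper58.IC.main_nil hd F hF hF0 hnz S hS hfin ?_ a ha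
  rintro y hy hy0 hyS ⟨k, c, hk, hc⟩
  obtain ⟨k', hk', ⟨c', hc'⟩, h⟩ := hM y hy hy0 hyS ⟨k, hk, c, by rw [hit]; exact hc⟩
  rw [hit] at hc' h
  exact ⟨k', c', hk', hc', h⟩

end Pool.Agent.Results.MP_b15c9e_ag.InvariantHyperplane
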